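import Pool.Agent.H709.QT.Defs

/-! Quadratic characters of a number field, and twists of rational representations. -/

set_option autoImplicit false

namespace Pool.Agent.H709.QT

open NumberField IsDedekindDomain Filter Topology Polynomial

section
variable {K : Type} [Field K]

theorem quadSign_cases (δ : K) (σ : Gal(AlgebraicClosure K/K)) :
    quadSign δ σ = 1 ∨ quadSign δ σ = -1 := by
  classical
  unfold quadSign
  split_ifs
  · exact Or.inl rfl
  · exact Or.inr rfl

theorem quadSign_sq (δ : K) (σ : Gal(AlgebraicClosure K/K)) :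
    quadSign δ σ * quadSign δ σ = 1 := by
  rcases quadSign_cases δ σ with h | h <;> rw [h] <;> norm_num

theorem quadSign_spec {δ : K} {r : AlgebraicClosure K}
    (hr : r ^ 2 = algebraMap K (AlgebraicClosure K) δ) (σ : Gal(AlgebraicClosure K/K)) :
    σ r = ((quadSign δ σ : ℤ) : AlgebraicClosure K) * r := by
  classical
  have hsq : ∀ t : AlgebraicClosure K, t ^ 2 = algebraMap K (AlgebraicClosure K) δ →
      σ t = t ∨ σ t = -t := by
    intro t ht
    have h1 : (σ t) ^ 2 = t ^ 2 := by rw [← map_pow, ht, AlgEquiv.commutes]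
    exact sq_eq_sq_iff_eq_or_eq_neg.1 h1
  unfold quadSign
  split_ifs with h
  · rw [h r hr]; simp
  · push Not at h
    obtain ⟨t, ht, htne⟩ := h
    have h1 : σ t = -t := (hsq t ht).resolve_left htne
    have h2 : r = t ∨ r = -t := sq_eq_sq_iff_eq_or_eq_neg.1 (by rw [hr, ht])
    rcases h2 with h2 | h2
    · rw [h2, h1]; simp
    · rw [h2, map_neg, h1]; simp

theorem exists_root (δ : K) : ∃ r : AlgebraicClosure K,
    r ^ 2 = algebraMap K (AlgebraicClosure K) δ :=
  IsAlgClosed.exists_pow_nat_eq _ (by norm_num)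

theorem root_ne {δ : K} (hδ : δ ≠ 0) {r : AlgebraicClosure K}
    (hr : r ^ 2 = algebraMap K (AlgebraicClosure K) δ) : r ≠ 0 := by
  rintro rfl
  apply hδ
  rw [zero_pow (by norm_num)] at hr
  exact (map_eq_zero _).1 hr.symm

variable [CharZero K]

theorem quadSign_eq {δ : K} (hδ : δ ≠ 0) {r : AlgebraicClosure K}
    (hr : r ^ 2 = algebraMap K (AlgebraicClosure K) δ) (σ : Gal(AlgebraicClosure K/K)) {c : ℤ}
    (h : σ r = (c : AlgebraicClosure K) * r) : quadSign δ σ = c := by
  have h0 := root_ne hδ hr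
  have h1 := (quadSign_spec hr σ).symm.trans h
  have h2 := mul_right_cancel₀ h0 h1
  have : CharZero (AlgebraicClosure K) := charZero_of_injective_algebraMap
    (algebraMap K (AlgebraicClosure K)).injective
  exact_mod_cast h2

theorem quadSign_mul {δ : K} (hδ : δ ≠ 0) (σ τ : Gal(AlgebraicClosure K/K)) :
    quadSign δ (σ * τ) = quadSign δ σ * quadSign δ τ := by
  obtain ⟨r, hr⟩ := exists_root δ
  refine quadSign_eq hδ hr _ ?_
  rw [AlgEquiv.mul_apply, quadSign_spec hr τ, map_mul, map_intCast, quadSign_spec hr σ]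
  push_cast
  ring

theorem quadSign_at_one {δ : K} (hδ : δ ≠ 0) : quadSign δ (1 : Gal(AlgebraicClosure K/K)) = 1 := by
  obtain ⟨r, hr⟩ := exists_root δ
  refine quadSign_eq hδ hr _ ?_
  rw [AlgEquiv.one_apply]
  simp

theorem quadSign_inv {δ : K} (hδ : δ ≠ 0) (σ : Gal(AlgebraicClosure K/K)) :
    quadSign δ σ⁻¹ = quadSign δ σ := by
  have h1 := quadSign_mul hδ σ⁻¹ σ
  rw [inv_mul_cancel, quadSign_at_one hδ] at h1
  have h2 := quadSign_sq δ σ
  rcases quadSign_cases δ σ with h | h <;> rw [h] at h1 h2 ⊢ <;> omega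

theorem quadSign_mul_left {δ δ' : K} (hδ : δ ≠ 0) (hδ' : δ' ≠ 0)
    (σ : Gal(AlgebraicClosure K/K)) :
    quadSign (δ * δ') σ = quadSign δ σ * quadSign δ' σ := by
  obtain ⟨r, hr⟩ := exists_root δ
  obtain ⟨r', hr'⟩ := exists_root δ'
  refine quadSign_eq (mul_ne_zero hδ hδ') (r := r * r') ?_ _ ?_
  · rw [mul_pow, hr, hr', map_mul]
  · rw [map_mul, quadSign_spec hr σ, quadSign_spec hr' σ]
    push_cast
    ring

theorem isSquare_of {δ : K} (h : ∀ σ : Gal(AlgebraicClosure K/K), quadSign δ σ = 1) :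
    IsSquare δ := by
  obtain ⟨r, hr⟩ := exists_root δ
  have h1 : ∀ σ : Gal(AlgebraicClosure K/K), σ r = r := fun σ => by
    rw [quadSign_spec hr σ, h σ]; simp
  obtain ⟨t, ht⟩ := (InfiniteGalois.mem_range_algebraMap_iff_fixed r).2 h1
  refine ⟨t, ?_⟩
  apply (algebraMap K (AlgebraicClosure K)).injective
  rw [map_mul, ht, ← hr, sq]

open IntermediateField in
theorem exists_open {δ : K} (hδ : δ ≠ 0) : ∃ U : Subgroup Gal(AlgebraicClosure K/K),
    IsOpen (U : Set Gal(AlgebraicClosure K/K)) ∧ ∀ u ∈ U, quadSign δ u = 1 := by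
  obtain ⟨r, hr⟩ := exists_root δ
  have hint : IsIntegral K r := Algebra.IsIntegral.isIntegral r
  have : FiniteDimensional K K⟮r⟯ := adjoin.finiteDimensional hint
  refine ⟨K⟮r⟯.fixingSubgroup, IntermediateField.fixingSubgroup_isOpen _, fun u hu => ?_⟩
  refine quadSign_eq hδ hr _ ?_
  have h1 : u r = r := (IntermediateField.mem_fixingSubgroup_iff _ _).1 hu r
    (mem_adjoin_simple_self K r)
  rw [h1]; simp

variable {V : Type} [AddCommGroup V] [Module ℚ V]

/-- the twist of a representation -/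
noncomputable def tw (θ : Representation ℚ Gal(AlgebraicClosure K/K) V) {δ : K} (hδ : δ ≠ 0) :
    Representation ℚ Gal(AlgebraicClosure K/K) V where
  toFun σ := (quadSign δ σ : ℚ) • θ σ
  map_one' := by rw [quadSign_at_one hδ, map_one]; simp
  map_mul' σ τ := by
    rw [quadSign_mul hδ, map_mul, smul_mul_smul_comm]
    push_cast
    rfl

theorem tw_apply (θ : Representation ℚ Gal(AlgebraicClosure K/K) V) {δ : K} (hδ : δ ≠ 0)
    (σ : Gal(AlgebraicClosure K/K)) : tw θ hδ σ = (quadSign δ σ : ℚ) • θ σ := rfl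

theorem mem_eigenspace (θ : Representation ℚ Gal(AlgebraicClosure K/K) V) {δ : K} (hδ : δ ≠ 0)
    (w : V) : w ∈ eigenspace θ δ ↔ ∀ σ, tw θ hδ σ w = w := by
  have h : ∀ σ, (θ σ w = (quadSign δ σ : ℚ) • w) ↔ tw θ hδ σ w = w := by
    intro σ
    rw [tw_apply, LinearMap.smul_apply]
    have h2 : ((quadSign δ σ : ℚ)) * (quadSign δ σ : ℚ) = 1 := by exact_mod_cast quadSign_sq δ σ
    constructor
    · intro h
      rw [h, smul_smul, h2, one_smul]
    · intro h
      conv_rhs => rw [← h]
      rw [smul_smul, h2, one_smul]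
  exact forall_congr' h

end
end Pool.Agent.H709.QT
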