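import Pool.Agent.H709.QT.Quot

/-! The common value of the defects, without conditions on the quotient. -/

set_option autoImplicit false

namespace Pool.Agent.H709.QT

open Complex Filter Topology NumberField IsDedekindDomain Polynomial
  Pool.Agent.W401.Cheb Pool.Agent.W540.BE
open Pool.Agent.W353.EF (LFun)

theorem double_sum_le {κ : Type*} (T : Finset κ) (a : κ → ℝ) :
    ∑ i ∈ T, ∑ j ∈ T, (a j - a i) ^ 2 ≤ 2 * (T.card : ℝ) * ∑ i ∈ T, a i ^ 2 := by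
  have h : ∑ i ∈ T, ∑ j ∈ T, (a j - a i) ^ 2 =
      2 * (T.card : ℝ) * ∑ i ∈ T, a i ^ 2 - 2 * (∑ i ∈ T, a i) ^ 2 := by
    have h1 : ∀ i ∈ T, ∑ j ∈ T, (a j - a i) ^ 2 =
        (∑ j ∈ T, a j ^ 2) - (2 * ∑ j ∈ T, a j) * a i + (T.card : ℝ) * a i ^ 2 := by
      intro i _
      have h2 : ∀ j ∈ T, (a j - a i) ^ 2 = a j ^ 2 - (2 * a i) * a j + a i ^ 2 :=
        fun j _ => by ring
      rw [Finset.sum_congr rfl h2, Finset.sum_add_distrib, Finset.sum_sub_distrib,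
        ← Finset.mul_sum, Finset.sum_const, nsmul_eq_mul]
      ring
    rw [Finset.sum_congr rfl h1, Finset.sum_add_distrib, Finset.sum_sub_distrib,
      ← Finset.mul_sum, ← Finset.mul_sum, Finset.sum_const, nsmul_eq_mul]
    ring
  rw [h]
  nlinarith [sq_nonneg (∑ i ∈ T, a i)]

section
variable {K : Type} [Field K] [NumberField K] {M N : ℕ}
  {α : HeightOneSpectrum (𝓞 K) → Fin M → ℂ} {β : HeightOneSpectrum (𝓞 K) → Fin N → ℂ}
  {W : Type} [AddCommGroup W] [Module ℚ W] [FiniteDimensional ℚ W]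

/-- **The sum over the pairs.** -/
theorem pair_square (hg : ∀ᶠ v in cofinite, Good v (α v) ∧ Good v (β v))
    {θ : Representation ℚ (GK K) W} (hθ : IsPart θ β) (T : Finset K) (hT0 : ∀ δ ∈ T, δ ≠ 0)
    (hT : ∀ δ ∈ T, ∀ δ' ∈ T, δ ≠ δ' → ¬ IsSquare (δ * δ'))
    {B : K → HeightOneSpectrum (𝓞 K) → ℂ[X]} (hB : ∀ δ ∈ T, IsSystem α β δ (B δ)) {r : K → ℤ}
    (hr : ∀ δ ∈ T, HasPole (B δ) (r δ)) :
    ∑ δ ∈ T, ∑ δ' ∈ T, ((r δ' - Module.finrank ℚ (eigenspace θ δ')) -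
      (r δ - Module.finrank ℚ (eigenspace θ δ))) ^ 2 ≤
      2 * (T.card : ℤ) * ((N - Module.finrank ℚ W : ℕ) : ℤ) ^ 2 := by
  classical
  obtain ⟨B₀, hB₀⟩ := exists_quotient (hg.mono fun v hv => hv.1)
  choose σ hσ using exists_isFrob (F := K)
  have hs : ∀ δ ∈ T, Tendsto (size (B δ)) (𝓝[>] 0) (𝓝 (r δ : ℝ)) := fun δ hδ =>
    size_pole (diff_size σ hσ hg hB₀ (hB δ hδ)).2.1 (hr δ hδ)
  have hlim : Tendsto (fun ε : ℝ => ∑ δ ∈ T, ∑ δ' ∈ T,
      ((size (B δ') ε - Module.finrank ℚ (eigenspace θ δ')) -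
        (size (B δ) ε - Module.finrank ℚ (eigenspace θ δ))) ^ 2) (𝓝[>] 0)
      (𝓝 (∑ δ ∈ T, ∑ δ' ∈ T, (((r δ' : ℝ) - Module.finrank ℚ (eigenspace θ δ')) -
        ((r δ : ℝ) - Module.finrank ℚ (eigenspace θ δ))) ^ 2)) :=
    tendsto_finsetSum T fun δ hδ => tendsto_finsetSum T fun δ' hδ' =>
      ((((hs δ' hδ').sub_const _).sub ((hs δ hδ).sub_const _)).pow 2)
  have hle : ∑ δ ∈ T, ∑ δ' ∈ T, (((r δ' : ℝ) - Module.finrank ℚ (eigenspace θ δ')) -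
        ((r δ : ℝ) - Module.finrank ℚ (eigenspace θ δ))) ^ 2 ≤
      2 * (T.card : ℝ) * ((N - Module.finrank ℚ W : ℕ) : ℝ) ^ 2 := by
    refine le_of_forall_pos_le_add fun η hη => le_of_tendsto hlim ?_
    have hη' : 0 < η / (2 * (T.card : ℝ) + 1) := by positivity
    filter_upwards [mean_square hg hθ T hT0 hT hB₀ hB hη'] with ε hε
    have h1 := double_sum_le T
      fun δ => size (B δ) ε - size B₀ ε - Module.finrank ℚ (eigenspace θ δ)
    have h2 : 2 * (T.card : ℝ) * (η / (2 * (T.card : ℝ) + 1)) ≤ η := by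
      rw [← mul_div_assoc, div_le_iff₀ (by positivity)]
      nlinarith
    calc ∑ δ ∈ T, ∑ δ' ∈ T, ((size (B δ') ε - Module.finrank ℚ (eigenspace θ δ')) -
          (size (B δ) ε - Module.finrank ℚ (eigenspace θ δ))) ^ 2
        = ∑ δ ∈ T, ∑ δ' ∈ T, ((size (B δ') ε - size B₀ ε -
            Module.finrank ℚ (eigenspace θ δ')) - (size (B δ) ε - size B₀ ε -
            Module.finrank ℚ (eigenspace θ δ))) ^ 2 :=
          Finset.sum_congr rfl fun δ _ => Finset.sum_congr rfl fun δ' _ => by ring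
      _ ≤ _ := h1
      _ ≤ 2 * (T.card : ℝ) * (((N - Module.finrank ℚ W : ℕ) : ℝ) ^ 2 +
          η / (2 * (T.card : ℝ) + 1)) := mul_le_mul_of_nonneg_left hε (by positivity)
      _ ≤ _ := by
        rw [mul_add]
        linarith
  exact_mod_cast hle

/-- **The common value.** -/
theorem common (T : Finset K) (m : ℕ) (f : K → ℤ)
    (h : ∑ δ ∈ T, ∑ δ' ∈ T, (f δ' - f δ) ^ 2 ≤ 2 * (T.card : ℤ) * (m : ℤ) ^ 2) :
    ∃ D : ℤ, ∑ δ ∈ T, (f δ - D) ^ 2 ≤ 2 * (m : ℤ) ^ 2 := by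
  rcases T.eq_empty_or_nonempty with rfl | hT
  · exact ⟨0, by simp⟩
  · obtain ⟨δ₀, -, h1⟩ := Finset.exists_le_of_sum_le hT (f := fun δ => ∑ δ' ∈ T, (f δ' - f δ) ^ 2)
      (g := fun _ => 2 * (m : ℤ) ^ 2) (by
        rw [Finset.sum_const, nsmul_eq_mul]
        refine h.trans (le_of_eq ?_)
        ring)
    exact ⟨f δ₀, h1⟩

end

end Pool.Agent.H709.QT
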