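import Pool.Agent.W353.TD.Defs

/-!
# Quadratic twists of a variety with an involution: definitions

`X` is a smooth projective variety of dimension `d` over a number field `K`, in the projective space
with the coordinates `u_1, …, u_n`, and `ι : (u_i) ↦ (s_i u_i)`, `s_i = ±1`, is an involution of `X`
(every involution of a projective variety is of this kind in a suitable embedding).  For `δ ∈ K`,
`δ ≠ 0`, let `X_δ` be the quadratic twist of `X` by `ι` and `K(√δ)`: the variety over `K` of the points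
`u` such that the point with the coordinates `u_i` for `s_i = 1` and `√δ u_i` for `s_i = -1` is in `X`.
Then `H²(X_δ) = H²(X)⁺ ⊕ H²(X)⁻ ⊗ χ_δ` for the quadratic character `χ_δ` of `K(√δ)/K`, and `H²(X)⁺` is
`H²` of the quotient `X / ι`.
-/

set_option autoImplicit false

namespace Pool.Agent.H709.QT

open NumberField IsDedekindDomain Filter Topology Polynomial
open Pool.Agent.W353.EF (LFun)
open Pool.Agent.W353.TD (eigenvalues IsFrobeniusElement)

section
variable {K : Type} [Field K] {n : ℕ}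

/-- The number of the nonzero solutions `u` of the equations `f = 0`, `f ∈ X`, with coordinates in the
algebraic closure of the field `κ` with `q` elements, such that `u_i ^ q = s_i u_i` for all `i`.  For
`s = 1` these are the solutions in `κ`.  In general it is `(q - 1)` times the number of the points `P` of
`X` over the algebraic closure with `Frob(P) = ι(P)`. -/
noncomputable def cone (X : Set (MvPolynomial (Fin n) (𝓞 K))) (s : Fin n → ℤˣ) {κ : Type}
    [Field κ] (φ : 𝓞 K →+* κ) : ℕ :=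
  Nat.card {u : Fin n → AlgebraicClosure κ // u ≠ 0 ∧
    (∀ i, u i ^ Nat.card κ = ((s i : ℤ) : AlgebraicClosure κ) * u i) ∧
    ∀ f ∈ X, MvPolynomial.eval₂ ((algebraMap κ (AlgebraicClosure κ)).comp φ) u f = 0}

/-- `α_1, …, α_M` and `β_1, …, β_N` are the eigenvalues of the geometric Frobenius at the prime `v` on
the parts `H²(X)⁺` and `H²(X)⁻` of `H²(X)` on which `ι` is `1` and `-1`: there are finite multisets
`A_k` and `B_k` of complex numbers of absolute value `q_v^{k/2}`, closed under complex conjugation,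
`k = 0, …, 2d`, with `A_2 = {α_i}` and `B_2 = {β_j}`, such that for every finite extension of degree `e`
of the residue field of `v` the numbers of the points `P` with `Frob(P) = P` and with
`Frob(P) = ι(P)` are `∑ (-1)^k (∑_{A_k} z^e + ∑_{B_k} z^e)` and `∑ (-1)^k (∑_{A_k} z^e - ∑_{B_k} z^e)`.
By the trace formula and the theorem of Deligne such multisets exist at almost all primes; they are
unique. -/
def IsFrobenius [NumberField K] (X : Set (MvPolynomial (Fin n) (𝓞 K))) (s : Fin n → ℤˣ) (d : ℕ)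
    (v : HeightOneSpectrum (𝓞 K)) {M N : ℕ} (α : Fin M → ℂ) (β : Fin N → ℂ) : Prop :=
  ∃ A B : ℕ → Multiset ℂ, A 2 = Finset.univ.val.map α ∧ B 2 = Finset.univ.val.map β ∧
    (∀ k, (A k).map (starRingEnd ℂ) = A k ∧ (B k).map (starRingEnd ℂ) = B k ∧
      ∀ z ∈ A k + B k, ‖z‖ = (Ideal.absNorm v.asIdeal : ℝ) ^ ((k : ℝ) / 2)) ∧
    ∀ (κ : Type) [Field κ] [Finite κ] (φ : 𝓞 K →+* κ) (e : ℕ), RingHom.ker φ = v.asIdeal →
      Nat.card κ = Ideal.absNorm v.asIdeal ^ e →
      (cone X 1 φ : ℂ) = ((Ideal.absNorm v.asIdeal : ℂ) ^ e - 1) *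
        ∑ k ∈ Finset.range (2 * d + 1), (-1 : ℂ) ^ k *
          (((A k).map (fun z => z ^ e)).sum + ((B k).map (fun z => z ^ e)).sum) ∧
      (cone X s φ : ℂ) = ((Ideal.absNorm v.asIdeal : ℂ) ^ e - 1) *
        ∑ k ∈ Finset.range (2 * d + 1), (-1 : ℂ) ^ k *
          (((A k).map (fun z => z ^ e)).sum - ((B k).map (fun z => z ^ e)).sum)

open Classical in
/-- The value `±1` at `σ` of the quadratic character `χ_δ` of `K(√δ)/K`. -/
noncomputable def quadSign (δ : K) (σ : Gal(AlgebraicClosure K/K)) : ℤ :=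
  if ∀ r : AlgebraicClosure K, r ^ 2 = algebraMap K (AlgebraicClosure K) δ → σ r = r then 1
  else -1

variable [NumberField K] {M N : ℕ} (α : HeightOneSpectrum (𝓞 K) → Fin M → ℂ)
  (β : HeightOneSpectrum (𝓞 K) → Fin N → ℂ)

/-- The polynomials `B v` are the Euler factors of `L₂(s, X_δ) = ∏ B_v(q_v^{-s})⁻¹`: for almost all
primes, `B_v(z) = det(1 - Frob z | H²(X)⁺ ⊕ H²(X)⁻ ⊗ χ_δ)`, with the eigenvalues `α_i` and
`χ_δ(Frob) β_j`; at the other primes `B v` is an arbitrary polynomial, and no factor has a pole at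
`s = 2`. -/
def IsSystem (δ : K) (B : HeightOneSpectrum (𝓞 K) → ℂ[X]) : Prop :=
  (∀ᶠ v in cofinite, ∀ σ, IsFrobeniusElement v σ → ∀ z : ℂ,
    (B v).eval z = (∏ i, (1 - α v i * z)) * ∏ j, (1 - (quadSign δ σ : ℂ) * β v j * z)) ∧
  ∀ v, (B v).eval ((Ideal.absNorm v.asIdeal : ℂ) ^ (-(2 : ℂ))) ≠ 0

/-- The polynomials `B v` are the Euler factors of the L-function of `H²(X)⁺ = H²(X / ι)`. -/
def IsQuotientSystem (B : HeightOneSpectrum (𝓞 K) → ℂ[X]) : Prop :=
  (∀ᶠ v in cofinite, ∀ z : ℂ, (B v).eval z = ∏ i, (1 - α v i * z)) ∧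
  ∀ v, (B v).eval ((Ideal.absNorm v.asIdeal : ℂ) ^ (-(2 : ℂ))) ≠ 0

/-- `log |L(2 + ε)| / log(1/ε)` for the Euler product `L(s) = ∏ B_v(q_v^{-s})⁻¹`. -/
noncomputable def size (B : HeightOneSpectrum (𝓞 K) → ℂ[X]) (ε : ℝ) : ℝ :=
  Real.log ‖LFun B (2 + ε)‖ / Real.log (1 / ε)

/-- `L(s) = ∏ B_v(q_v^{-s})⁻¹` has a pole of order `r` at `s = 2`: it has a meromorphic continuation to
a neighbourhood of `2`, of order `-r` there. -/
def HasPole (B : HeightOneSpectrum (𝓞 K) → ℂ[X]) (r : ℤ) : Prop :=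
  ∃ Λ : ℂ → ℂ, MeromorphicAt Λ 2 ∧ (∀ᶠ s in 𝓝 (2 : ℂ), 2 < s.re → Λ s = LFun B s) ∧
    meromorphicOrderAt Λ 2 = (-r : ℤ)

end

section
variable {K : Type} [Field K] {V : Type} [AddCommGroup V] [Module ℚ V]

/-- `V`, with the action `ρ` of the absolute Galois group of `K`, is a part of the cohomology with the
Frobenius eigenvalues `α v`, twisted by `1`: the action is trivial on an open subgroup, and for almost
all primes `v` the eigenvalues of the geometric Frobenius `σ⁻¹` on `V`, multiplied by `q_v`, are among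
the `α v`, with multiplicities.  The main examples are `(NS(X) ⊗ ℚ)⁺` for `H²(X)⁺` and `(NS(X) ⊗ ℚ)⁻`
for `H²(X)⁻`. -/
def IsPart [NumberField K] [FiniteDimensional ℚ V]
    (ρ : Representation ℚ Gal(AlgebraicClosure K/K) V) {M : ℕ}
    (α : HeightOneSpectrum (𝓞 K) → Fin M → ℂ) : Prop :=
  (∃ U : Subgroup Gal(AlgebraicClosure K/K), IsOpen (U : Set Gal(AlgebraicClosure K/K)) ∧
    ∀ u ∈ U, ρ u = 1) ∧
  ∀ᶠ v in cofinite, ∀ σ, IsFrobeniusElement v σ →
    (eigenvalues (ρ σ⁻¹)).map (fun z => (Ideal.absNorm v.asIdeal : ℂ) * z) ≤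
      Finset.univ.val.map (α v)

/-- The vectors on which the absolute Galois group acts by the quadratic character of `K(√δ)/K`. -/
def eigenspace (ρ : Representation ℚ Gal(AlgebraicClosure K/K) V) (δ : K) : Submodule ℚ V where
  carrier := {w | ∀ σ, ρ σ w = (quadSign δ σ : ℚ) • w}
  add_mem' {x y} hx hy σ := by rw [map_add, hx σ, hy σ, smul_add]
  zero_mem' σ := by rw [map_zero, smul_zero]
  smul_mem' c x hx σ := by rw [map_smul, hx σ, smul_comm]

/-- The rank of the group of the classes of divisors of the quotient `X / ι` defined over `K`. -/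
noncomputable def quotientRank (ρ : Representation ℚ Gal(AlgebraicClosure K/K) V) : ℕ :=
  Module.finrank ℚ (Representation.invariants ρ)

/-- The rank of `NS(X_δ / K)`, for `V = (NS(X) ⊗ ℚ)⁺` and `W = (NS(X) ⊗ ℚ)⁻`: the dimension of the space
of the elements of `V ⊕ W ⊗ χ_δ` fixed by the absolute Galois group of `K`. -/
noncomputable def twistRank {W : Type} [AddCommGroup W] [Module ℚ W]
    (ρ : Representation ℚ Gal(AlgebraicClosure K/K) V)
    (θ : Representation ℚ Gal(AlgebraicClosure K/K) W) (δ : K) : ℕ :=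
  Module.finrank ℚ (Representation.invariants ρ) + Module.finrank ℚ (eigenspace θ δ)

end

end Pool.Agent.H709.QT
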