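import Pool.Agent.H709.QT.Mean

/-! The poles of the quadratic twists of a variety with an involution: proofs. -/

set_option autoImplicit false

namespace Pool.Agent.H709.QT

open Complex Filter Topology ComplexConjugate NumberField IsDedekindDomain Polynomial
  Pool.Agent.W401.Cheb Pool.Agent.W540.BE Pool.Agent.W353.L1 Pool.Agent.W353.AT Pool.Agent.W353.SP
open Pool.Agent.H341R2 (lam lam_tendsto)
open Pool.Agent.W353.TD (ch eig eig_sum eig_card)
open Pool.Agent.W353.EF (LFun)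

section
variable {K : Type} [Field K] [NumberField K] {M N : ℕ}

/-- the conditions on the eigenvalues which are used -/
def Good (v : HeightOneSpectrum (𝓞 K)) {b : ℕ} (α : Fin b → ℂ) : Prop :=
  (∀ j, ‖α j‖ = (nm K v : ℝ) ^ (1 : ℝ)) ∧ (∑ j, α j).im = 0

theorem good_of {v : HeightOneSpectrum (𝓞 K)} {b : ℕ} {α : Fin b → ℂ} {A : Multiset ℂ}
    (h1 : A = Finset.univ.val.map α) (h2 : A.map (starRingEnd ℂ) = A)
    (h3 : ∀ z ∈ A, ‖z‖ = (Ideal.absNorm v.asIdeal : ℝ) ^ (((2 : ℕ) : ℝ) / 2)) : Good v α := by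
  constructor
  · intro j
    have h4 := h3 (α j) (by
      rw [h1]
      exact Multiset.mem_map.2 ⟨j, Finset.mem_univ_val j, rfl⟩)
    have e : ((2 : ℕ) : ℝ) / 2 = 1 := by norm_num
    rw [e] at h4
    exact h4
  · have h4 : A.sum = ∑ j, α j := by rw [h1]; rfl
    have h5 : (A.map (starRingEnd ℂ)).sum = (starRingEnd ℂ) A.sum :=
      (map_multiset_sum (starRingEnd ℂ) A).symm
    rw [h2, h4] at h5
    exact Complex.conj_eq_iff_im.1 h5.symm

theorem good_frobenius {n d : ℕ} {X : Set (MvPolynomial (Fin n) (𝓞 K))} {s : Fin n → ℤˣ}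
    {v : HeightOneSpectrum (𝓞 K)} {α : Fin M → ℂ} {β : Fin N → ℂ}
    (h : IsFrobenius X s d v α β) : Good v α ∧ Good v β := by
  obtain ⟨A, B, hA, hB, h1, -⟩ := h
  obtain ⟨h2, h3, h4⟩ := h1 2
  exact ⟨good_of hA h2 fun z hz => h4 z (Multiset.mem_add.2 (Or.inl hz)),
    good_of hB h3 fun z hz => h4 z (Multiset.mem_add.2 (Or.inr hz))⟩

/-- the size of an Euler product -/
theorem size_of {b : ℕ} (γ : HeightOneSpectrum (𝓞 K) → Fin b → ℂ)
    (hγ : ∀ᶠ v in cofinite, Good v (γ v)) (B : HeightOneSpectrum (𝓞 K) → ℂ[X])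
    (hB : ∀ᶠ v in cofinite, ∀ z : ℂ, (B v).eval z = ∏ j, (1 - γ v j * z))
    (hB0 : ∀ v, (B v).eval ((Ideal.absNorm v.asIdeal : ℂ) ^ (-(2 : ℂ))) ≠ 0) :
    (∀ᶠ ε : ℝ in 𝓝[>] 0, LFun B (2 + ε) ≠ 0) ∧
    Tendsto (fun ε => ED K ε (fun v => tr 1 γ v) - size B ε) (𝓝[>] 0) (𝓝 0) := by
  choose σ hσ using exists_isFrob (F := K)
  have e0 : (((1 : ℝ) : ℂ) + 1 + ((0 : ℝ) : ℂ) * I) = 2 := by push_cast; ring
  have h := size_corr (1 : ℝ) γ (hγ.mono fun v hv => hv.1) (hγ.mono fun v hv => hv.2)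
    (⊤ : Subgroup (GK K)) (n := 1) (1 : Representation ℂ (GK K) (Fin 1 → ℂ)) (fun _ _ => rfl) 0 B
    (hB.mono fun v hv g _ z => by
      rw [hv z]
      refine Finset.prod_congr rfl fun j _ => ?_
      have e1 : (1 : Module.End ℂ (Fin 1 → ℂ)) - (γ v j * z) •
          ((1 : Representation ℂ (GK K) (Fin 1 → ℂ)) g⁻¹) =
          (1 - γ v j * z) • (1 : Module.End ℂ (Fin 1 → ℂ)) := by
        have e0 : (1 : Representation ℂ (GK K) (Fin 1 → ℂ)) g⁻¹ =
            (1 : Module.End ℂ (Fin 1 → ℂ)) := rfl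
        rw [e0]
        refine LinearMap.ext fun x => ?_
        rw [LinearMap.sub_apply, LinearMap.smul_apply, LinearMap.smul_apply,
          Module.End.one_apply]
        exact (by rw [sub_smul, one_smul] : x - (γ v j * z) • x =
          ((1 : ℂ) - γ v j * z) • x)
      rw [e1, LinearMap.det_smul]
      simp)
    (by rw [e0]; exact hB0) (LFun B) (fun s _ => rfl) σ hσ
  simp only [e0] at h
  refine ⟨h.1, h.2.congr fun ε => ?_⟩
  have e2 : (fun v => ((tr 1 γ v : ℂ) * ((1 : Representation ℂ (GK K) (Fin 1 → ℂ)).character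
      (σ v)⁻¹ * zz 0 v)).re) = fun v => tr 1 γ v := by
    funext v
    have e3 : (1 : Representation ℂ (GK K) (Fin 1 → ℂ)).character (σ v)⁻¹ = 1 := by
      have : (1 : Representation ℂ (GK K) (Fin 1 → ℂ)).character (σ v)⁻¹ =
          LinearMap.trace ℂ (Fin 1 → ℂ) (1 : Module.End ℂ (Fin 1 → ℂ)) := rfl
      rw [this, LinearMap.trace_one]
      simp
    have e4 : zz 0 v = 1 := by
      unfold zz
      rw [Complex.ofReal_zero, zero_mul, neg_zero, Complex.cpow_zero]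
    rw [e3, e4, mul_one, mul_one, Complex.ofReal_re]
  rw [e2]
  rfl

variable (α : HeightOneSpectrum (𝓞 K) → Fin M → ℂ) (β : HeightOneSpectrum (𝓞 K) → Fin N → ℂ)

omit [NumberField K] in
theorem abs_quadSign (δ : K) (g : GK K) : |((quadSign δ g : ℤ) : ℝ)| ≤ 1 := by
  rcases quadSign_cases δ g with h | h <;> rw [h] <;> simp

/-- the eigenvalues for the twist -/
noncomputable def gam (δ : K) (σ : HeightOneSpectrum (𝓞 K) → GK K)
    (v : HeightOneSpectrum (𝓞 K)) : Fin (M + N) → ℂ :=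
  Fin.append (α v) fun j => (quadSign δ (σ v) : ℂ) * β v j

variable {α β}

omit [NumberField K] in
theorem gam_sum (δ : K) (σ : HeightOneSpectrum (𝓞 K) → GK K) (v : HeightOneSpectrum (𝓞 K)) :
    ∑ j, gam α β δ σ v j = (∑ j, α v j) + (quadSign δ (σ v) : ℂ) * ∑ j, β v j := by
  unfold gam
  rw [Fin.sum_univ_add, Finset.mul_sum]
  simp only [Fin.append_left, Fin.append_right]

theorem gam_good (δ : K) (σ : HeightOneSpectrum (𝓞 K) → GK K) {v : HeightOneSpectrum (𝓞 K)}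
    (h : Good v (α v)) (h' : Good v (β v)) : Good v (gam α β δ σ v) := by
  constructor
  · intro j
    unfold gam
    refine Fin.addCases (fun i => ?_) (fun i => ?_) j
    · rw [Fin.append_left]
      exact h.1 i
    · rw [Fin.append_right, norm_mul, h'.1 i]
      rcases quadSign_cases δ (σ v) with h1 | h1 <;> rw [h1] <;> simp
  · rw [gam_sum, Complex.add_im, h.2, zero_add]
    have : ((quadSign δ (σ v) : ℤ) : ℂ) = (((quadSign δ (σ v) : ℤ) : ℝ) : ℂ) := by push_cast; rfl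
    rw [this, Complex.im_ofReal_mul, h'.2, mul_zero]

theorem tr_gam (δ : K) (σ : HeightOneSpectrum (𝓞 K) → GK K) {v : HeightOneSpectrum (𝓞 K)}
    (h : Good v (α v)) (h' : Good v (β v)) :
    tr 1 (gam α β δ σ) v = tr 1 α v + (quadSign δ (σ v) : ℝ) * tr 1 β v := by
  have h1 := gam_good δ σ h h'
  have h2 := tr_eq (w := 1) (α := gam α β δ σ) h1.1 h1.2
  have h3 := tr_eq (w := 1) (α := α) h.1 h.2
  have h4 := tr_eq (w := 1) (α := β) h'.1 h'.2
  have h5 : ((tr 1 (gam α β δ σ) v : ℝ) : ℂ) =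
      ((tr 1 α v + (quadSign δ (σ v) : ℝ) * tr 1 β v : ℝ) : ℂ) := by
    push_cast
    rw [h2, h3, h4, gam_sum]
    ring
  exact_mod_cast h5

/-- the difference of the sizes of a twist and of the quotient -/
theorem diff_size (σ : HeightOneSpectrum (𝓞 K) → GK K) (hσ : ∀ v, IsFrob v (σ v))
    (hg : ∀ᶠ v in cofinite, Good v (α v) ∧ Good v (β v)) {δ : K}
    {B₀ B : HeightOneSpectrum (𝓞 K) → ℂ[X]} (hB₀ : IsQuotientSystem α B₀)
    (hB : IsSystem α β δ B) :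
    (∀ᶠ ε : ℝ in 𝓝[>] 0, LFun B₀ (2 + ε) ≠ 0) ∧ (∀ᶠ ε : ℝ in 𝓝[>] 0, LFun B (2 + ε) ≠ 0) ∧
    Tendsto (fun ε => ED K ε (fun v => (quadSign δ (σ v) : ℝ) * tr 1 β v) -
      (size B ε - size B₀ ε)) (𝓝[>] 0) (𝓝 0) := by
  obtain ⟨h1, h2⟩ := size_of α (hg.mono fun v hv => hv.1) B₀ hB₀.1 hB₀.2
  obtain ⟨h3, h4⟩ := size_of (gam α β δ σ) (hg.mono fun v hv => gam_good δ σ hv.1 hv.2) B
    (hB.1.mono fun v hv z => by
      rw [hv (σ v) (hσ v) z, Fin.prod_univ_add]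
      unfold gam
      simp only [Fin.append_left, Fin.append_right]) hB.2
  refine ⟨h1, h3, ?_⟩
  have bα : Bd fun v => tr 1 α v := ⟨M, fun v => abs_tr_le _ _ _⟩
  have bβ : Bd fun v => tr 1 β v := ⟨N, fun v => abs_tr_le _ _ _⟩
  have bγ : Bd fun v => tr 1 (gam α β δ σ) v := ⟨_, fun v => abs_tr_le _ _ _⟩
  have bχ : Bd fun v => (quadSign δ (σ v) : ℝ) := ⟨1, fun v => abs_quadSign δ (σ v)⟩
  have bχβ := bχ.mul bβ
  have bP := bα.add bχβ
  have bφ := bγ.add bP.neg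
  have hfin : {v | tr 1 (gam α β δ σ) v + -(tr 1 α v + (quadSign δ (σ v) : ℝ) * tr 1 β v) ≠
      0}.Finite := by
    have h5 := hg
    rw [Filter.eventually_cofinite] at h5
    refine h5.subset fun v hv h => hv ?_
    rw [tr_gam δ σ h.1 h.2]
    ring
  have h6 := (mnD K).fin _ bφ hfin
  have h7 := (h4.sub h2).sub h6
  rw [sub_zero, sub_zero] at h7
  refine h7.congr' ?_
  filter_upwards [(mnD K).add _ _ bα bχβ, (mnD K).add _ _ bP bφ] with ε h8 h9
  have e1 : (fun v => (tr 1 α v + (quadSign δ (σ v) : ℝ) * tr 1 β v) +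
      (tr 1 (gam α β δ σ) v + -(tr 1 α v + (quadSign δ (σ v) : ℝ) * tr 1 β v))) =
      fun v => tr 1 (gam α β δ σ) v := by
    funext v
    ring
  rw [e1, h8] at h9
  linarith

variable {W : Type} [AddCommGroup W] [Module ℚ W] [FiniteDimensional ℚ W]

/-- the traces on the complement of a part are bounded -/
theorem comp_bound {b : ℕ} {α : HeightOneSpectrum (𝓞 K) → Fin b → ℂ}
    {θ : Representation ℚ (GK K) W} {v : HeightOneSpectrum (𝓞 K)} {σ : GK K}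
    (hg : Good v (α v)) (hle : (eig (θ σ⁻¹)).map (fun z => (Ideal.absNorm v.asIdeal : ℂ) * z) ≤
      Finset.univ.val.map (α v)) :
    |tr 1 α v - ch θ σ⁻¹| ≤ ((b - Module.finrank ℚ W : ℕ) : ℝ) := by
  classical
  obtain ⟨γ, hγ⟩ := Multiset.le_iff_exists_add.1 hle
  have hq : (1 : ℝ) < (Ideal.absNorm v.asIdeal : ℝ) := Pool.Agent.W353.PV.one_lt_norm v
  have hq0 : (0 : ℝ) < (Ideal.absNorm v.asIdeal : ℝ) := by linarith
  have hqC : (Ideal.absNorm v.asIdeal : ℂ) ≠ 0 := by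
    exact_mod_cast hq0.ne'
  have hnorm : ∀ z ∈ γ, ‖z‖ = (Ideal.absNorm v.asIdeal : ℝ) := by
    intro z hz
    have h5 : z ∈ Finset.univ.val.map (α v) := by
      rw [hγ]
      exact Multiset.mem_add.2 (Or.inr hz)
    obtain ⟨j, -, rfl⟩ := Multiset.mem_map.1 h5
    have h6 := hg.1 j
    rw [Real.rpow_one] at h6
    exact h6
  have hcard : γ.card = b - Module.finrank ℚ W := by
    have h5 := congrArg Multiset.card hγ
    rw [Multiset.card_map, Multiset.card_add, Multiset.card_map, eig_card] at h5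
    have h6 : (Finset.univ : Finset (Fin b)).val.card = b := by simp
    omega
  have hsum : ∑ j, α v j =
      (Ideal.absNorm v.asIdeal : ℂ) * ((LinearMap.trace ℚ W (θ σ⁻¹) : ℚ) : ℂ) + γ.sum := by
    have h5 := congrArg Multiset.sum hγ
    rw [Multiset.sum_add, Multiset.sum_map_mul_left, Multiset.map_id', eig_sum] at h5
    exact h5
  have htr := tr_eq (w := 1) (α := α) hg.1 hg.2
  have hpow : ((nm K v : ℕ) : ℂ) ^ (-((1 : ℝ) : ℂ)) = (Ideal.absNorm v.asIdeal : ℂ)⁻¹ := by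
    rw [Complex.ofReal_one, Complex.cpow_neg_one]
    rfl
  have key : ((tr 1 α v - ch θ σ⁻¹ : ℝ) : ℂ) =
      γ.sum * (Ideal.absNorm v.asIdeal : ℂ)⁻¹ := by
    rw [Complex.ofReal_sub, htr, hpow, hsum, ch]
    field_simp
    push_cast
    ring
  rw [← Real.norm_eq_abs, ← Complex.norm_real, key, norm_mul, norm_inv,
    Complex.norm_natCast, ← hcard]
  have h8 : ‖γ.sum‖ ≤ γ.card * (Ideal.absNorm v.asIdeal : ℝ) := by
    refine (norm_multiset_sum_le _).trans (le_of_eq ?_)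
    have h9 : γ.map (fun z => ‖z‖) = γ.map fun _ => (Ideal.absNorm v.asIdeal : ℝ) :=
      Multiset.map_congr rfl fun z hz => hnorm z hz
    rw [h9, Multiset.map_const', Multiset.sum_replicate, nsmul_eq_mul]
  rw [← div_eq_mul_inv, div_le_iff₀ hq0]
  exact h8

open Classical in
/-- the normalised trace on the complement -/
noncomputable def tC (β : HeightOneSpectrum (𝓞 K) → Fin N → ℂ) (θ : Representation ℚ (GK K) W)
    (s : ℕ) (σ : HeightOneSpectrum (𝓞 K) → GK K) (v : HeightOneSpectrum (𝓞 K)) : ℝ :=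
  if |tr 1 β v - ch θ (σ v)⁻¹| ≤ s then tr 1 β v - ch θ (σ v)⁻¹ else 0

theorem abs_tC (θ : Representation ℚ (GK K) W) (s : ℕ) (σ : HeightOneSpectrum (𝓞 K) → GK K)
    (v : HeightOneSpectrum (𝓞 K)) : |tC β θ s σ v| ≤ s := by
  unfold tC
  split_ifs with h
  · exact h
  · rw [abs_zero]
    exact Nat.cast_nonneg _

/-- **The sizes on the complement of the algebraic part.** -/
theorem comp_size (σ : HeightOneSpectrum (𝓞 K) → GK K) (hσ : ∀ v, IsFrob v (σ v))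
    (hg : ∀ᶠ v in cofinite, Good v (α v) ∧ Good v (β v)) {θ : Representation ℚ (GK K) W}
    (hθ : IsPart θ β) {δ : K} (hδ : δ ≠ 0)
    {B₀ B : HeightOneSpectrum (𝓞 K) → ℂ[X]} (hB₀ : IsQuotientSystem α B₀)
    (hB : IsSystem α β δ B) :
    Tendsto (fun ε => ED K ε (fun v => tC β θ (N - Module.finrank ℚ W) σ v *
      (quadSign δ (σ v) : ℝ)) - (size B ε - size B₀ ε - Module.finrank ℚ (eigenspace θ δ)))
      (𝓝[>] 0) (𝓝 0) := by
  set s : ℕ := N - Module.finrank ℚ W with hs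
  obtain ⟨-, -, h1⟩ := diff_size σ hσ hg hB₀ hB
  obtain ⟨bc, h2⟩ := mean_ch θ hθ.1 hδ σ hσ
  have bβ : Bd fun v => tr 1 β v := ⟨N, fun v => abs_tr_le _ _ _⟩
  have bχ : Bd fun v => (quadSign δ (σ v) : ℝ) := ⟨1, fun v => abs_quadSign δ (σ v)⟩
  have bT : Bd fun v => tC β θ s σ v := ⟨s, fun v => abs_tC _ _ _ _⟩
  have bTχ := bT.mul bχ
  have bχβ := bχ.mul bβ
  have bcn := (Bd.const (K := K) (-1)).mul bc
  have bQ := bχβ.add bcn
  have bφ := bTχ.add bQ.neg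
  have hfin : {v | tC β θ s σ v * (quadSign δ (σ v) : ℝ) +
      -((quadSign δ (σ v) : ℝ) * tr 1 β v + -1 * ((quadSign δ (σ v) : ℝ) * ch θ (σ v)⁻¹)) ≠
      0}.Finite := by
    have h5 := hg.and hθ.2
    rw [Filter.eventually_cofinite] at h5
    refine h5.subset fun v hv h => hv ?_
    have h6 := comp_bound h.1.2 (h.2 (σ v) (hσ v))
    unfold tC
    rw [if_pos h6]
    ring
  have h6 := (mnD K).fin _ bφ hfin
  have h7 := (h1.sub h2).add h6
  have h8 := h7.add_const (Module.finrank ℚ (eigenspace θ δ) : ℝ)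
  have e0 : (0 : ℝ) - (Module.finrank ℚ (eigenspace θ δ) : ℝ) + 0 +
      (Module.finrank ℚ (eigenspace θ δ) : ℝ) = 0 := by ring
  rw [e0] at h8
  refine h8.congr' ?_
  filter_upwards [(mnD K).add _ _ bχβ bcn, (mnD K).add _ _ bQ bφ] with ε h9 h10
  have e1 : (fun v => ((quadSign δ (σ v) : ℝ) * tr 1 β v +
      -1 * ((quadSign δ (σ v) : ℝ) * ch θ (σ v)⁻¹)) + (tC β θ s σ v * (quadSign δ (σ v) : ℝ) +
      -((quadSign δ (σ v) : ℝ) * tr 1 β v + -1 * ((quadSign δ (σ v) : ℝ) * ch θ (σ v)⁻¹)))) =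
      fun v => tC β θ s σ v * (quadSign δ (σ v) : ℝ) := by
    funext v
    ring
  rw [e1, h9, (mnD K).smul] at h10
  linarith

/-- **The mean square of the differences of the defects.** -/
theorem mean_square (hg : ∀ᶠ v in cofinite, Good v (α v) ∧ Good v (β v))
    {θ : Representation ℚ (GK K) W} (hθ : IsPart θ β) (T : Finset K) (hT0 : ∀ δ ∈ T, δ ≠ 0)
    (hT : ∀ δ ∈ T, ∀ δ' ∈ T, δ ≠ δ' → ¬ IsSquare (δ * δ'))
    {B₀ : HeightOneSpectrum (𝓞 K) → ℂ[X]} {B : K → HeightOneSpectrum (𝓞 K) → ℂ[X]}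
    (hB₀ : IsQuotientSystem α B₀) (hB : ∀ δ ∈ T, IsSystem α β δ (B δ)) {η : ℝ} (hη : 0 < η) :
    ∀ᶠ ε : ℝ in 𝓝[>] 0,
      ∑ δ ∈ T, (size (B δ) ε - size B₀ ε - Module.finrank ℚ (eigenspace θ δ)) ^ 2 ≤
        ((N - Module.finrank ℚ W : ℕ) : ℝ) ^ 2 + η := by
  classical
  choose σ hσ using exists_isFrob (F := K)
  refine square_close T (y := fun δ ε => ED K ε (fun v => tC β θ (N - Module.finrank ℚ W) σ v *
      (quadSign δ (σ v) : ℝ)))
    (x := fun δ ε => size (B δ) ε - size B₀ ε - Module.finrank ℚ (eigenspace θ δ))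
    (fun η' hη' => bessel_real T (fun v => abs_tC θ _ σ v)
      (fun δ v => ?_) (fun δ hδ δ' hδ' hne => ?_) hη') (fun δ hδ => ?_) hη
  · exact abs_quadSign δ (σ v)
  · exact mean_pair (hT0 δ hδ) (hT0 δ' hδ') (hT δ hδ δ' hδ' hne) σ hσ
  · exact comp_size σ hσ hg hθ (hT0 δ hδ) hB₀ (hB δ hδ)

/-- sizes and poles -/
theorem size_pole {B : HeightOneSpectrum (𝓞 K) → ℂ[X]}
    (h0 : ∀ᶠ ε : ℝ in 𝓝[>] 0, LFun B (2 + ε) ≠ 0) {r : ℤ} (h : HasPole B r) :
    Tendsto (size B) (𝓝[>] 0) (𝓝 (r : ℝ)) := by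
  obtain ⟨Λ, h1, h2, h3⟩ := h
  have h4 := Pool.Agent.W353.PV.lim_ord (L := LFun B) (s₀ := 2) h0 h1 (by
    simpa using h2) h3
  have e : (-(((-r : ℤ)) : ℝ)) = (r : ℝ) := by push_cast; ring
  rw [e] at h4
  exact h4

/-- the case of an algebraic quotient -/
theorem size_alg {V : Type} [AddCommGroup V] [Module ℚ V] [FiniteDimensional ℚ V]
    (hg : ∀ᶠ v in cofinite, Good v (α v)) {ρ : Representation ℚ (GK K) V} (hρ : IsPart ρ α)
    (hV : M ≤ Module.finrank ℚ V) {B₀ : HeightOneSpectrum (𝓞 K) → ℂ[X]}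
    (hB₀ : IsQuotientSystem α B₀) :
    Tendsto (size B₀) (𝓝[>] 0) (𝓝 (quotientRank ρ : ℝ)) := by
  choose σ hσ using exists_isFrob (F := K)
  obtain ⟨-, h2⟩ := size_of α hg B₀ hB₀.1 hB₀.2
  obtain ⟨bc, h3⟩ := mean_ch ρ hρ.1 (one_ne_zero (α := K)) σ hσ
  have hone : ∀ g : GK K, quadSign (1 : K) g = 1 := fun g => by
    refine quadSign_eq one_ne_zero (r := 1) (by simp) g ?_
    simp
  have hrank : eigenspace ρ (1 : K) = Representation.invariants ρ := by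
    ext w
    constructor
    · intro h g
      have h1 := h g
      rw [hone] at h1
      simpa using h1
    · intro h g
      have h1 := h g
      rw [hone]
      simpa using h1
  have h4 : (fun v => ((quadSign (1 : K) (σ v) : ℤ) : ℝ) * ch ρ (σ v)⁻¹) =
      fun v => ch ρ (σ v)⁻¹ := by
    funext v
    rw [hone]
    simp
  rw [h4] at bc h3
  rw [hrank] at h3
  have bα : Bd fun v => tr 1 α v := ⟨M, fun v => abs_tr_le _ _ _⟩
  have bφ := bα.add bc.neg
  have hfin : {v | tr 1 α v + -ch ρ (σ v)⁻¹ ≠ 0}.Finite := by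
    have h5 := hg.and hρ.2
    rw [Filter.eventually_cofinite] at h5
    refine h5.subset fun v hv h => hv ?_
    have h6 := comp_bound h.1 (h.2 (σ v) (hσ v))
    rw [Nat.sub_eq_zero_of_le hV, Nat.cast_zero] at h6
    have h7 := abs_nonpos_iff.1 h6
    linarith
  have h6 := (mnD K).fin _ bφ hfin
  have h7 := (h3.add h6).sub h2
  rw [add_zero, sub_zero] at h7
  refine h7.congr' ?_
  filter_upwards [(mnD K).add _ _ bc bφ] with ε h8
  have e1 : (fun v => ch ρ (σ v)⁻¹ + (tr 1 α v + -ch ρ (σ v)⁻¹)) = fun v => tr 1 α v := by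
    funext v
    ring
  rw [e1] at h8
  linarith

/-- **The sum of the squares for the poles.** -/
theorem pole_square (hg : ∀ᶠ v in cofinite, Good v (α v) ∧ Good v (β v))
    {θ : Representation ℚ (GK K) W} (hθ : IsPart θ β) (T : Finset K) (hT0 : ∀ δ ∈ T, δ ≠ 0)
    (hT : ∀ δ ∈ T, ∀ δ' ∈ T, δ ≠ δ' → ¬ IsSquare (δ * δ'))
    {B₀ : HeightOneSpectrum (𝓞 K) → ℂ[X]} {B : K → HeightOneSpectrum (𝓞 K) → ℂ[X]}
    (hB₀ : IsQuotientSystem α B₀) (hB : ∀ δ ∈ T, IsSystem α β δ (B δ)) {r₀ : ℤ}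
    (hr₀ : Tendsto (size B₀) (𝓝[>] 0) (𝓝 (r₀ : ℝ))) {r : K → ℤ}
    (hr : ∀ δ ∈ T, HasPole (B δ) (r δ)) :
    ∑ δ ∈ T, (r δ - r₀ - Module.finrank ℚ (eigenspace θ δ)) ^ 2 ≤
      ((N - Module.finrank ℚ W : ℕ) : ℤ) ^ 2 := by
  classical
  choose σ hσ using exists_isFrob (F := K)
  have hlim : Tendsto (fun ε : ℝ =>
      ∑ δ ∈ T, (size (B δ) ε - size B₀ ε - Module.finrank ℚ (eigenspace θ δ)) ^ 2) (𝓝[>] 0)
      (𝓝 (∑ δ ∈ T, ((r δ : ℝ) - r₀ - Module.finrank ℚ (eigenspace θ δ)) ^ 2)) := by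
    refine tendsto_finsetSum T fun δ hδ => (((?_ : Tendsto (size (B δ)) (𝓝[>] 0)
      (𝓝 (r δ : ℝ))).sub hr₀).sub_const _).pow 2
    exact size_pole (diff_size σ hσ hg hB₀ (hB δ hδ)).2.1 (hr δ hδ)
  have hle : ∑ δ ∈ T, ((r δ : ℝ) - r₀ - Module.finrank ℚ (eigenspace θ δ)) ^ 2 ≤
      ((N - Module.finrank ℚ W : ℕ) : ℝ) ^ 2 :=
    le_of_forall_pos_le_add fun η hη => le_of_tendsto hlim (mean_square hg hθ T hT0 hT hB₀ hB hη)
  exact_mod_cast hle

end

end Pool.Agent.H709.QT
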