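import Pool.Agent.W353.SP.Inst
import Pool.Agent.H709.QT.Basic

/-! Mean values of quadratic characters, and Bessel's inequality. -/

set_option autoImplicit false

namespace Pool.Agent.H709.QT

open Complex Filter Topology ComplexConjugate NumberField IsDedekindDomain Polynomial
  Pool.Agent.W401.Cheb Pool.Agent.W540.BE Pool.Agent.W353.L1 Pool.Agent.W353.AT Pool.Agent.W353.SP
open Pool.Agent.H341R2 (lam lam_tendsto sysK NormSys)
open Pool.Agent.W353.TD (ch cheb_fix)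
open Pool.Agent.W353.NF (fixn EP_eq)

section
variable {K : Type} [Field K] [NumberField K]

theorem fixn_self (σ : GK K) : fixn K K σ = 1 := by
  unfold fixn
  have : Subsingleton (K →ₐ[K] AlgebraicClosure K) :=
    Algebra.subsingleton_id (AlgebraicClosure K)
  rw [Nat.card_eq_one_iff_unique]
  exact ⟨inferInstance, ⟨⟨Algebra.ofId K _, Subsingleton.elim _ _⟩⟩⟩

theorem ch_tw {W : Type} [AddCommGroup W] [Module ℚ W] (θ : Representation ℚ (GK K) W) {δ : K}
    (hδ : δ ≠ 0) (σ : GK K) : ch (tw θ hδ) σ⁻¹ = (quadSign δ σ : ℝ) * ch θ σ⁻¹ := by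
  unfold ch
  rw [tw_apply, map_smul, quadSign_inv hδ, smul_eq_mul]
  push_cast
  rfl

/-- **Chebotarev's theorem** for the character of `θ ⊗ χ_δ`. -/
theorem mean_ch {W : Type} [AddCommGroup W] [Module ℚ W] [FiniteDimensional ℚ W]
    (θ : Representation ℚ (GK K) W)
    (hθ : ∃ U : Subgroup (GK K), IsOpen (U : Set (GK K)) ∧ ∀ u ∈ U, θ u = 1) {δ : K}
    (hδ : δ ≠ 0) (σ : HeightOneSpectrum (𝓞 K) → GK K) (hσ : ∀ v, IsFrob v (σ v)) :
    Hs (𝓝[>] 0) (ED K) (fun v => (quadSign δ (σ v) : ℝ) * ch θ (σ v)⁻¹)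
      (Module.finrank ℚ (eigenspace θ δ)) := by
  have hopen : ∃ U : Subgroup (GK K), IsOpen (U : Set (GK K)) ∧ ∀ u ∈ U, tw θ hδ u = 1 := by
    obtain ⟨U, hU, h1⟩ := hθ
    obtain ⟨U', hU', h2⟩ := exists_open hδ
    refine ⟨U ⊓ U', ?_, fun u hu => ?_⟩
    · rw [Subgroup.coe_inf]
      exact hU.inter hU'
    · rw [tw_apply, h1 u hu.1, h2 u hu.2]
      simp
  obtain ⟨⟨B, hB⟩, hlim⟩ := cheb_fix (tw θ hδ) K hopen (Algebra.ofId K (AlgebraicClosure K)) σ hσ
  have hinv : Pool.Agent.W353.TD.inv (tw θ hδ)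
      (Algebra.ofId K (AlgebraicClosure K)).fieldRange.fixingSubgroup = eigenspace θ δ := by
    ext w
    rw [mem_eigenspace θ hδ]
    constructor
    · intro h g
      refine h g ?_
      rw [IntermediateField.mem_fixingSubgroup_iff]
      rintro _ ⟨y, rfl⟩
      exact g.commutes y
    · intro h g _
      exact h g
  rw [hinv] at hlim
  refine ⟨⟨B, fun v => ?_⟩, ?_⟩
  · have h := hB (σ v)
    rw [ch_tw, fixn_self, Nat.cast_one, mul_one] at h
    exact h
  · refine hlim.congr fun ε => ?_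
    unfold ED
    congr 2
    funext v
    rw [ch_tw, fixn_self, Nat.cast_one, mul_one]

/-- orthogonality of the quadratic characters -/
theorem mean_pair {δ δ' : K} (hδ : δ ≠ 0) (hδ' : δ' ≠ 0) (h : ¬ IsSquare (δ * δ'))
    (σ : HeightOneSpectrum (𝓞 K) → GK K) (hσ : ∀ v, IsFrob v (σ v)) :
    Tendsto (fun ε => ED K ε fun v => (quadSign δ (σ v) : ℝ) * (quadSign δ' (σ v) : ℝ))
      (𝓝[>] 0) (𝓝 0) := by
  have h1 := mean_ch (K := K) (W := ℚ) (1 : Representation ℚ (GK K) ℚ)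
    ⟨⊤, isOpen_univ, fun _ _ => rfl⟩ (mul_ne_zero hδ hδ') σ hσ
  have hch : ∀ g : GK K, ch (1 : Representation ℚ (GK K) ℚ) g = 1 := by
    intro g
    unfold ch
    have e : (1 : Representation ℚ (GK K) ℚ) g = (1 : Module.End ℚ ℚ) := rfl
    rw [e, LinearMap.trace_one, Module.finrank_self]
    simp
  have h2 : eigenspace (1 : Representation ℚ (GK K) ℚ) (δ * δ') = ⊥ := by
    rw [eq_bot_iff]
    intro w hw
    rw [Submodule.mem_bot]
    by_contra hw0
    apply h
    refine isSquare_of fun g => ?_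
    have h3 : (1 : Representation ℚ (GK K) ℚ) g w = (quadSign (δ * δ') g : ℚ) • w := hw g
    have h4 : (1 : Representation ℚ (GK K) ℚ) g w = w := rfl
    rw [h4, smul_eq_mul] at h3
    have h5 : (quadSign (δ * δ') g : ℚ) = 1 := by
      have h6 : ((quadSign (δ * δ') g : ℚ) - 1) * w = 0 := by linarith
      rcases mul_eq_zero.1 h6 with h7 | h7
      · linarith
      · exact absurd h7 hw0
    exact_mod_cast h5
  rw [h2, finrank_bot] at h1
  have h3 := h1.2
  rw [Nat.cast_zero] at h3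
  refine h3.congr fun ε => ?_
  congr 1
  funext v
  rw [hch, mul_one, quadSign_mul_left hδ hδ']
  push_cast
  rfl

theorem lam_ratio : Tendsto (fun ε : ℝ => (sysK K).lam ε / lam ε) (𝓝[>] 0) (𝓝 1) := by
  refine (EP_one K).congr fun ε => ?_
  congr 1
  rw [EP_eq]
  unfold NormSys.E NormSys.lam
  refine tsum_congr fun v => ?_
  simp

/-- **Bessel's inequality.** -/
theorem bessel_real {κ : Type*} [DecidableEq κ] (S : Finset κ)
    {T : HeightOneSpectrum (𝓞 K) → ℝ} {s : ℝ} (hT : ∀ v, |T v| ≤ s)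
    {u : κ → HeightOneSpectrum (𝓞 K) → ℝ} (hu : ∀ k v, |u k v| ≤ 1)
    (ho : ∀ k ∈ S, ∀ l ∈ S, k ≠ l →
      Tendsto (fun ε => ED K ε fun v => u k v * u l v) (𝓝[>] 0) (𝓝 0))
    {η : ℝ} (hη : 0 < η) : ∀ᶠ ε : ℝ in 𝓝[>] 0,
      ∑ k ∈ S, (ED K ε fun v => T v * u k v) ^ 2 ≤ s ^ 2 + η := by
  classical
  set b : ℝ := Real.sqrt (s ^ 2 + η / 4) with hb
  have hb0 : 0 < b := Real.sqrt_pos.2 (by positivity)
  have hb2 : b ^ 2 = s ^ 2 + η / 4 := Real.sq_sqrt (by positivity)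
  have hsb : s ≤ b := Real.le_sqrt_of_sq_le (by linarith)
  have hre : ∀ (x y : ℝ), (((x : ℂ) * conj ((y : ℂ))).re) = x * y := by
    intro x y
    rw [Complex.conj_ofReal, ← Complex.ofReal_mul, Complex.ofReal_re]
  have hmb := Pool.Agent.H126T.multi_bessel (sysK K) S ({()} : Finset Unit)
    (fun _ v => ((T v : ℝ) : ℂ)) (fun _ k v => ((u k v : ℝ) : ℂ)) (fun _ => b)
    (fun _ _ => hb0) (fun _ _ v => by
      rw [Complex.norm_real, Real.norm_eq_abs]
      exact (hT v).trans hsb)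
    (fun _ k v => by
      rw [Complex.norm_real, Real.norm_eq_abs]
      exact hu k v)
    (fun _ _ k hk l hl hkl η' hη' => by
      have h1 := (ho k hk l hl hkl).abs
      rw [abs_zero] at h1
      filter_upwards [h1.eventually_lt_const (half_pos hη'),
        (lam_ratio (K := K)).eventually_const_lt (show (1 / 2 : ℝ) < 1 by norm_num),
        lam_tendsto.eventually_gt_atTop 0] with ε h2 h3 h4
      have e1 : (sysK K).E ε (fun v => ((((u k v : ℝ) : ℂ) * conj ((u l v : ℝ) : ℂ)).re)) =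
          (ED K ε fun v => u k v * u l v) * lam ε := by
        unfold ED
        rw [div_mul_cancel₀ _ h4.ne', EP_eq]
        congr 1
        funext v
        exact hre _ _
      have h5 : (1 / 2 : ℝ) * lam ε < (sysK K).lam ε := by
        rwa [lt_div_iff₀ h4] at h3
      change |(sysK K).E ε _| ≤ η' * (sysK K).lam ε
      rw [e1, abs_mul, abs_of_pos h4]
      nlinarith)
    (show (0 : ℝ) < η / 4 by positivity)
  have hlim : Tendsto (fun ε : ℝ => (s ^ 2 + η / 2) * ((sysK K).lam ε / lam ε) ^ 2) (𝓝[>] 0)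
      (𝓝 ((s ^ 2 + η / 2) * 1 ^ 2)) := ((lam_ratio (K := K)).pow 2).const_mul _
  filter_upwards [hmb, hlim.eventually_lt_const (show (s ^ 2 + η / 2) * 1 ^ 2 < s ^ 2 + η by
    linarith), lam_tendsto.eventually_gt_atTop 0] with ε h1 h2 h3
  rw [Finset.sum_singleton, hb2] at h1
  have e1 : ∀ k, (∑ j ∈ ({()} : Finset Unit), (sysK K).E ε fun v =>
      ((((T v : ℝ) : ℂ) * conj ((u k v : ℝ) : ℂ)).re)) = (ED K ε fun v => T v * u k v) * lam ε := by
    intro k
    rw [Finset.sum_singleton]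
    unfold ED
    rw [div_mul_cancel₀ _ h3.ne', EP_eq]
    congr 1
    funext v
    exact hre _ _
  simp only [e1, mul_pow] at h1
  rw [← Finset.sum_mul] at h1
  have h4 : 0 < lam ε ^ 2 := by positivity
  have h5 : ∑ k ∈ S, (ED K ε fun v => T v * u k v) ^ 2 ≤
      (s ^ 2 + η / 2) * ((sysK K).lam ε / lam ε) ^ 2 := by
    rw [div_pow, ← mul_div_assoc, le_div_iff₀ h4]
    refine h1.trans (le_of_eq ?_)
    ring
  exact h5.trans h2.le

/-- passing from one family of functions to another one with the same asymptotics -/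
theorem square_close {κ : Type*} (S : Finset κ) {x y : κ → ℝ → ℝ} {s : ℝ}
    (hy : ∀ η : ℝ, 0 < η → ∀ᶠ ε : ℝ in 𝓝[>] 0, ∑ k ∈ S, y k ε ^ 2 ≤ s ^ 2 + η)
    (hxy : ∀ k ∈ S, Tendsto (fun ε => y k ε - x k ε) (𝓝[>] 0) (𝓝 0)) {η : ℝ} (hη : 0 < η) :
    ∀ᶠ ε : ℝ in 𝓝[>] 0, ∑ k ∈ S, x k ε ^ 2 ≤ s ^ 2 + η := by
  set c : ℝ := η / (4 * (s ^ 2 + η)) with hc
  have hc0 : 0 < c := by positivity
  have hcs : c * (s ^ 2 + η / 4) ≤ η / 4 := by
    rw [hc, div_mul_eq_mul_div, div_le_div_iff₀ (by positivity) (by norm_num)]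
    nlinarith [sq_nonneg s]
  have hlim : Tendsto (fun ε => (1 + 1 / c) * ∑ k ∈ S, (y k ε - x k ε) ^ 2) (𝓝[>] 0) (𝓝 0) := by
    have h := (tendsto_finsetSum S fun k hk => (hxy k hk).pow 2).const_mul (1 + 1 / c)
    simpa using h
  filter_upwards [hy (η / 4) (by positivity),
    hlim.eventually_lt_const (show (0 : ℝ) < η / 4 by positivity)] with ε h1 h2
  have h3 : ∑ k ∈ S, x k ε ^ 2 ≤ (1 + c) * ∑ k ∈ S, y k ε ^ 2 +
      (1 + 1 / c) * ∑ k ∈ S, (y k ε - x k ε) ^ 2 := by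
    rw [Finset.mul_sum, Finset.mul_sum, ← Finset.sum_add_distrib]
    refine Finset.sum_le_sum fun k _ => ?_
    have h4 : (1 + c) * y k ε ^ 2 + (1 + 1 / c) * (y k ε - x k ε) ^ 2 - x k ε ^ 2 =
        (c * y k ε + (y k ε - x k ε)) ^ 2 / c := by
      field_simp
      ring
    have h5 : 0 ≤ (c * y k ε + (y k ε - x k ε)) ^ 2 / c := by positivity
    linarith
  have h6 : (1 + c) * ∑ k ∈ S, y k ε ^ 2 ≤ (1 + c) * (s ^ 2 + η / 4) :=
    mul_le_mul_of_nonneg_left h1 (by positivity)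
  nlinarith

end

end Pool.Agent.H709.QT
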