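import Pool.Agent.H709.QT.Main

/-! Euler factors of the quotient, and counting. -/

set_option autoImplicit false

namespace Pool.Agent.H709.QT

open Complex Filter Topology NumberField IsDedekindDomain Polynomial
  Pool.Agent.W401.Cheb Pool.Agent.W540.BE

section
variable {K : Type} [Field K] [NumberField K] {M : ℕ}

theorem exists_quotient {α : HeightOneSpectrum (𝓞 K) → Fin M → ℂ}
    (hg : ∀ᶠ v in cofinite, Good v (α v)) : ∃ B₀, IsQuotientSystem α B₀ := by
  classical
  refine ⟨fun v => if Good v (α v) then ∏ i, (1 - C (α v i) * X) else 1, ?_, fun v => ?_⟩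
  · refine hg.mono fun v hv z => ?_
    simp only []
    rw [if_pos hv, eval_prod]
    refine Finset.prod_congr rfl fun i _ => ?_
    simp
  · simp only []
    split_ifs with hv
    · rw [eval_prod]
      refine Finset.prod_ne_zero_iff.2 fun i _ h => ?_
      rw [eval_sub, eval_one, eval_mul, eval_C, eval_X, sub_eq_zero] at h
      have hq : (1 : ℝ) < (Ideal.absNorm v.asIdeal : ℝ) := Pool.Agent.W353.PV.one_lt_norm v
      have hq0 : 0 < Ideal.absNorm v.asIdeal := by
        have : (0 : ℝ) < (Ideal.absNorm v.asIdeal : ℝ) := by linarith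
        exact_mod_cast this
      have h1 := congrArg norm h
      have h2 := hv.1 i
      rw [Real.rpow_one] at h2
      have h3 : (nm K v : ℝ) = (Ideal.absNorm v.asIdeal : ℝ) := rfl
      rw [norm_one, norm_mul, h2, h3, Complex.norm_natCast_cpow_of_pos hq0] at h1
      have h4 : (-(2 : ℂ)).re = -2 := by simp
      rw [h4] at h1
      have h5 : (Ideal.absNorm v.asIdeal : ℝ) * (Ideal.absNorm v.asIdeal : ℝ) ^ (-2 : ℝ) =
          (Ideal.absNorm v.asIdeal : ℝ)⁻¹ := by
        have h6 : (Ideal.absNorm v.asIdeal : ℝ) ≠ 0 := by linarith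
        have h7 : (Ideal.absNorm v.asIdeal : ℝ) ^ (-2 : ℝ) =
            ((Ideal.absNorm v.asIdeal : ℝ) ^ 2)⁻¹ := by
          rw [Real.rpow_neg (by linarith)]
          norm_num
        rw [h7]
        field_simp
      rw [h5] at h1
      have h8 : (Ideal.absNorm v.asIdeal : ℝ)⁻¹ < 1 := inv_lt_one_of_one_lt₀ hq
      linarith
    · simp

end

theorem count_le {K : Type} (T : Finset K) (f g : K → ℤ) :
    (({δ | δ ∈ T ∧ f δ ≠ g δ}.ncard : ℕ) : ℤ) ≤ ∑ δ ∈ T, (f δ - g δ) ^ 2 := by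
  classical
  have e : {δ | δ ∈ T ∧ f δ ≠ g δ} = ((T.filter fun δ => f δ ≠ g δ : Finset K) : Set K) := by
    ext δ
    simp
  rw [e, Set.ncard_coe_finset, Finset.card_eq_sum_ones]
  push_cast
  rw [Finset.sum_filter]
  refine Finset.sum_le_sum fun δ _ => ?_
  split_ifs with h2
  · have h3 : f δ - g δ ≠ 0 := sub_ne_zero.2 h2
    have := Int.one_le_abs h3
    nlinarith [sq_abs (f δ - g δ)]
  · positivity

theorem square_count {K : Type} (T : Finset K) (m : ℕ) (f g : K → ℤ)
    (h : ∑ δ ∈ T, (f δ - g δ) ^ 2 ≤ (m : ℤ) ^ 2) :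
    ∑ δ ∈ T, (f δ - g δ) ^ 2 ≤ (m : ℤ) ^ 2 ∧ {δ | δ ∈ T ∧ f δ ≠ g δ}.ncard ≤ m ^ 2 := by
  refine ⟨h, ?_⟩
  exact_mod_cast (count_le T f g).trans h

end Pool.Agent.H709.QT
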